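import Mathlib

namespace Pool.Agent.H.MP_a2ac39_an

open MeasureTheory Set Filter Topology
open scoped Real ComplexConjugate

theorem diag_null (ρ : Measure ℂ) [IsFiniteMeasure ρ] [NullSingletonClass ρ] :
    ∀ᵐ p ∂(ρ.prod ρ), p.1 ≠ p.2 := by
  have hm : MeasurableSet {p : ℂ × ℂ | p.1 = p.2} :=
    measurableSet_eq_fun measurable_fst measurable_snd
  have : (ρ.prod ρ) {p : ℂ × ℂ | p.1 = p.2} = 0 := by
    rw [Measure.measure_prod_null hm]
    refine Eventually.of_forall fun x => ?_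
    have : Prod.mk x ⁻¹' {p : ℂ × ℂ | p.1 = p.2} = {x} := by ext y; simp [eq_comm]
    simp [this]
  simpa [ae_iff] using this

theorem polar (ρ : Measure ℂ) [IsFiniteMeasure ρ] [NullSingletonClass ρ]
    (hρ : Integrable (fun p : ℂ × ℂ => Real.log ‖p.1 - p.2‖) (ρ.prod ρ)) (F : Set ℂ)
    (hF : ∀ k : ℕ, ∃ c : (Fin k → Bool) → ℂ,
      F ⊆ ⋃ w, Metric.closedBall (c w) (Real.exp (-(16 : ℝ) ^ k) / 2)) : ρ F = 0 := by
  set I := ∫ p : ℂ × ℂ, ‖Real.log ‖p.1 - p.2‖‖ ∂(ρ.prod ρ) with hI
  have hI0 : 0 ≤ I := integral_nonneg fun _ => norm_nonneg _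
  have hball : ∀ (k : ℕ) (c : ℂ), ρ.real (Metric.closedBall c (Real.exp (-(16 : ℝ) ^ k) / 2)) ≤
      Real.sqrt I / 4 ^ k := by
    intro k c
    set B := Metric.closedBall c (Real.exp (-(16 : ℝ) ^ k) / 2)
    have h1 := mul_meas_ge_le_integral_of_nonneg (μ := ρ.prod ρ)
      (Eventually.of_forall fun p => norm_nonneg (Real.log ‖p.1 - p.2‖)) hρ.norm ((16 : ℝ) ^ k)
    have h2 : (B ×ˢ B : Set (ℂ × ℂ)) ≤ᵐ[ρ.prod ρ]
        {p : ℂ × ℂ | (16 : ℝ) ^ k ≤ ‖Real.log ‖p.1 - p.2‖‖} := by
      filter_upwards [diag_null ρ] with p hp hB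
      have h3 : ‖p.1 - p.2‖ ≤ Real.exp (-(16 : ℝ) ^ k) := by
        have := dist_triangle_right p.1 p.2 c
        rw [dist_eq_norm] at this
        have a1 := Metric.mem_closedBall.1 hB.1
        have a2 := Metric.mem_closedBall.1 hB.2
        linarith
      have h4 := Real.log_le_log (norm_pos_iff.2 (sub_ne_zero.2 hp)) h3
      rw [Real.log_exp] at h4
      show (16 : ℝ) ^ k ≤ |Real.log ‖p.1 - p.2‖|
      linarith [neg_abs_le (Real.log ‖p.1 - p.2‖)]
    have h3 := ENNReal.toReal_mono (measure_ne_top _ _) (measure_mono_ae h2)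
    rw [Measure.prod_prod, ENNReal.toReal_mul] at h3
    have h4 : (4 ^ k * ρ.real B) ^ 2 ≤ I := by
      have e : (16 : ℝ) ^ k = (4 ^ k) ^ 2 := by rw [← pow_mul, mul_comm, pow_mul]; norm_num
      have h5 := mul_le_mul_of_nonneg_left h3 (show (0 : ℝ) ≤ 16 ^ k by positivity)
      rw [mul_pow, ← e, sq]
      exact h5.trans h1
    rw [le_div_iff₀ (by positivity), mul_comm]
    exact Real.le_sqrt_of_sq_le h4
  have hle : ∀ k : ℕ, ρ.real F ≤ Real.sqrt I * (1 / 2) ^ k := by
    intro k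
    obtain ⟨c, hc⟩ := hF k
    refine (measureReal_mono hc).trans ((measureReal_iUnion_fintype_le _).trans ?_)
    refine (Finset.sum_le_card_nsmul _ _ _ fun w _ => hball k (c w)).trans (le_of_eq ?_)
    have e : (4 : ℝ) ^ k = 2 ^ k * 2 ^ k := by rw [← mul_pow]; norm_num
    simp only [Finset.card_univ, Fintype.card_fun, Fintype.card_bool, Fintype.card_fin,
      nsmul_eq_mul, e, one_div, inv_pow]
    push_cast
    field_simp
  have h0 : Tendsto (fun k : ℕ => Real.sqrt I * (1 / 2 : ℝ) ^ k) atTop (𝓝 (Real.sqrt I * 0)) :=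
    (tendsto_pow_atTop_nhds_zero_of_lt_one (by norm_num) (by norm_num)).const_mul _
  rw [mul_zero] at h0
  have := ge_of_tendsto' h0 hle
  exact (measureReal_eq_zero_iff (measure_ne_top _ _)).1 (le_antisymm this measureReal_nonneg)

theorem energy_r (ρ : Measure ℂ) [IsProbabilityMeasure ρ] (hρ : ∀ᵐ z ∂ρ, ‖z‖ = 1) {r : ℝ}
    (hr0 : 0 < r) (hr : r < 1) :
    Integrable (fun p : ℂ × ℂ => Real.log ‖1 - r * (p.1 * conj p.2)‖) (ρ.prod ρ) ∧
      ∫ p : ℂ × ℂ, Real.log ‖1 - r * (p.1 * conj p.2)‖ ∂(ρ.prod ρ) ≤ 0 := by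
  have hae : ∀ᵐ p ∂(ρ.prod ρ), ‖(r : ℂ) * (p.1 * conj p.2)‖ = r := by
    filter_upwards [Measure.quasiMeasurePreserving_fst.ae hρ,
      Measure.quasiMeasurePreserving_snd.ae hρ] with p h1 h2
    simp [h1, h2, abs_of_pos hr0]
  let F : ℕ → ℂ × ℂ → ℝ := fun n p => (((r : ℂ) * (p.1 * conj p.2)) ^ n / n).re
  have hFb : ∀ n, ∀ᵐ p ∂(ρ.prod ρ), ‖F n p‖ ≤ r ^ n := fun n => by
    filter_upwards [hae] with p hp
    refine (Complex.abs_re_le_norm _).trans ?_
    rw [norm_div, norm_pow, hp, Complex.norm_natCast]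
    rcases Nat.eq_zero_or_pos n with h | h
    · simp [h]
    · exact div_le_self (by positivity) (by exact_mod_cast h)
  have hFi : ∀ n, Integrable (F n) (ρ.prod ρ) := fun n =>
    Integrable.of_bound (Continuous.aestronglyMeasurable (by fun_prop)) _ (hFb n)
  have hs : Summable fun n => ∫ p, ‖F n p‖ ∂(ρ.prod ρ) := by
    refine Summable.of_nonneg_of_le (fun n => integral_nonneg fun _ => norm_nonneg _)
      (fun n => ?_) (summable_geometric_of_lt_one hr0.le hr)
    have := integral_mono_ae (hFi n).norm (integrable_const (r ^ n)) (hFb n)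
    simpa using this
  have h1 := hasSum_integral_of_summable_integral_norm hFi hs
  have h2 : ∀ᵐ p ∂(ρ.prod ρ), HasSum (fun n => F n p)
      (-Real.log ‖1 - r * (p.1 * conj p.2)‖) := by
    filter_upwards [hae] with p hp
    have := Complex.hasSum_re (Complex.hasSum_taylorSeries_neg_log (by rw [hp]; exact hr))
    rwa [Complex.neg_re, Complex.log_re] at this
  have h3 : ∀ n, 0 ≤ ∫ p, F n p ∂(ρ.prod ρ) := fun n => by
    have hi : Integrable (fun p : ℂ × ℂ => ((r : ℂ) * (p.1 * conj p.2)) ^ n / n) (ρ.prod ρ) := by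
      refine Integrable.div_const (Integrable.of_bound
        (Continuous.aestronglyMeasurable (by fun_prop)) (r ^ n) ?_) _
      filter_upwards [hae] with p hp
      rw [norm_pow, hp]
    have e1 : ∫ p, F n p ∂(ρ.prod ρ) =
        (∫ p : ℂ × ℂ, ((r : ℂ) * (p.1 * conj p.2)) ^ n / n ∂(ρ.prod ρ)).re :=
      integral_re hi
    have e2 : ∫ p : ℂ × ℂ, ((r : ℂ) * (p.1 * conj p.2)) ^ n / n ∂(ρ.prod ρ) =
        ((r ^ n / n * Complex.normSq (∫ z, z ^ n ∂ρ) : ℝ) : ℂ) := by
      have : ∀ p : ℂ × ℂ, ((r : ℂ) * (p.1 * conj p.2)) ^ n / n =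
          (r ^ n / n) * (p.1 ^ n * conj (p.2 ^ n)) := fun p => by
        rw [map_pow]; ring
      simp only [this]
      rw [integral_const_mul, integral_prod_mul (fun z : ℂ => z ^ n) (fun z : ℂ => conj (z ^ n)),
        integral_conj, Complex.mul_conj]
      push_cast; ring
    rw [e1, e2, Complex.ofReal_re]
    exact mul_nonneg (by positivity) (Complex.normSq_nonneg _)
  have h4 : ∫ p, ∑' n, F n p ∂(ρ.prod ρ) =
      -∫ p : ℂ × ℂ, Real.log ‖1 - r * (p.1 * conj p.2)‖ ∂(ρ.prod ρ) := by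
    rw [← integral_neg]
    exact integral_congr_ae (h2.mono fun p hp => hp.tsum_eq)
  have h5 := h1.nonneg h3
  refine ⟨Integrable.of_bound (Measurable.aestronglyMeasurable (by fun_prop)) (1 - r)⁻¹ ?_,
    by linarith⟩
  filter_upwards [h2, ae_all_iff.2 hFb] with p hp hb
  rw [← norm_neg, ← hp.tsum_eq]
  exact tsum_of_norm_bounded (hasSum_geometric_of_lt_one hr0.le hr) hb

theorem energy_le (ρ : Measure ℂ) [IsProbabilityMeasure ρ] [NullSingletonClass ρ] (hρ : ∀ᵐ z ∂ρ, ‖z‖ = 1)
    (hi : Integrable (fun p : ℂ × ℂ => Real.log ‖p.1 - p.2‖) (ρ.prod ρ)) :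
    ∫ p : ℂ × ℂ, Real.log ‖p.1 - p.2‖ ∂(ρ.prod ρ) ≤ 0 := by
  by_contra hcon
  push Not at hcon
  set I := ∫ p : ℂ × ℂ, Real.log ‖p.1 - p.2‖ ∂(ρ.prod ρ) with hI
  have hr0 := Real.exp_pos (-I)
  obtain ⟨h1, h2⟩ := energy_r ρ hρ hr0 (Real.exp_lt_one_iff.2 (by linarith))
  have h3 := integral_mono_ae hi (h1.add (integrable_const (I / 2))) (by
    filter_upwards [Measure.quasiMeasurePreserving_fst.ae hρ,
      Measure.quasiMeasurePreserving_snd.ae hρ, diag_null ρ] with p a1 a2 a3
    set r := Real.exp (-I)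
    set ζ := p.1 * conj p.2 with hζ
    have b1 : ‖ζ‖ = 1 := by simp [hζ, a1, a2]
    have b2 : ‖p.1 - p.2‖ = ‖1 - ζ‖ := by
      have : p.1 - p.2 = -p.2 * (1 - ζ) := by
        have := Complex.mul_conj' p.2
        rw [a2, Complex.ofReal_one, one_pow] at this
        rw [hζ]
        linear_combination -p.1 * this
      rw [this, norm_mul, norm_neg, a2, one_mul]
    have b3 : r * ‖1 - ζ‖ ^ 2 ≤ ‖1 - r * ζ‖ ^ 2 := by
      have c1 : ζ.re ^ 2 + ζ.im ^ 2 = 1 := by
        have := Complex.sq_norm ζ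
        rw [b1, Complex.normSq_apply] at this
        linarith
      rw [Complex.sq_norm, Complex.sq_norm, Complex.normSq_apply, Complex.normSq_apply]
      simp only [Complex.sub_re, Complex.one_re, Complex.sub_im, Complex.one_im,
        Complex.re_ofReal_mul, Complex.im_ofReal_mul]
      nlinarith [sq_nonneg (1 - r)]
    have b4 : 0 < ‖1 - ζ‖ := b2 ▸ norm_pos_iff.2 (sub_ne_zero.2 a3)
    have b5 := Real.log_le_log (by positivity) b3
    rw [Real.log_mul hr0.ne' (by positivity), Real.log_pow, Real.log_pow, Real.log_exp] at b5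
    simp only [Pi.add_apply, b2]
    push_cast at b5
    linarith)
  simp only [Pi.add_apply] at h3
  rw [integral_add h1 (integrable_const _)] at h3
  simp only [integral_const, probReal_univ, smul_eq_mul, one_mul] at h3
  linarith

/-- normalized arc length -/
noncomputable def nu : Measure ℂ :=
  ((ENNReal.ofReal (2 * π))⁻¹ • volume.restrict (Ioc 0 (2 * π))).map (circleMap 0 1)

instance : IsProbabilityMeasure nu := by
  refine ⟨?_⟩
  rw [nu, Measure.map_apply (measurable_circleMap 0 1) MeasurableSet.univ]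
  simp only [preimage_univ, Measure.smul_apply, Measure.restrict_apply_univ, Real.volume_Ioc,
    sub_zero, smul_eq_mul]
  exact ENNReal.inv_mul_cancel (by simp [Real.pi_pos]) ENNReal.ofReal_ne_top

instance : NullSingletonClass nu := by
  refine ⟨fun z => ?_⟩
  rw [nu, Measure.map_apply (measurable_circleMap 0 1) (measurableSet_singleton z),
    Measure.smul_apply,
    ((countable_singleton z).preimage_circleMap 0 one_ne_zero).measure_zero, smul_zero]

theorem nu_ae : ∀ᵐ z ∂nu, ‖z‖ = 1 := by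
  rw [nu, ae_map_iff (measurable_circleMap 0 1).aemeasurable
    (measurableSet_eq_fun measurable_norm measurable_const)]
  exact Eventually.of_forall fun θ => by simp

theorem nu_log {x : ℂ} (hx : ‖x‖ = 1) : Integrable (fun y => Real.log ‖x - y‖) nu ∧
    ∫ y, Real.log ‖x - y‖ ∂nu = 0 := by
  have hm : Measurable fun y : ℂ => Real.log ‖x - y‖ := by fun_prop
  have h1 := circleIntegrable_log_norm_sub_const (a := x) (c := 0) 1
  have h2 := circleAverage_log_norm_sub_const₁ hx
  have hpi : (0 : ℝ) ≤ 2 * π := by positivity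
  constructor
  · rw [nu, integrable_map_measure hm.aestronglyMeasurable (measurable_circleMap 0 1).aemeasurable]
    refine Integrable.smul_measure ?_ (by simp [Real.pi_pos])
    have := (intervalIntegrable_iff_integrableOn_Ioc_of_le hpi).1 h1
    refine this.congr (Eventually.of_forall fun θ => ?_)
    simp [norm_sub_rev]
  · rw [nu, integral_map (measurable_circleMap 0 1).aemeasurable hm.aestronglyMeasurable,
      integral_smul_measure]
    rw [Real.circleAverage_def, smul_eq_zero, intervalIntegral.integral_of_le hpi] at h2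
    rcases h2 with h2 | h2
    · exact absurd h2 (by positivity)
    · simp only [norm_sub_rev x]
      rw [h2, smul_zero]

theorem nu_energy : Integrable (fun p : ℂ × ℂ => Real.log ‖p.1 - p.2‖) (nu.prod nu) ∧
    ∫ p : ℂ × ℂ, Real.log ‖p.1 - p.2‖ ∂(nu.prod nu) = 0 := by
  have hm : AEStronglyMeasurable (fun p : ℂ × ℂ => Real.log ‖p.1 - p.2‖) (nu.prod nu) :=
    Measurable.aestronglyMeasurable (by fun_prop)
  have hi : Integrable (fun p : ℂ × ℂ => Real.log ‖p.1 - p.2‖) (nu.prod nu) := by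
    rw [integrable_prod_iff hm]
    refine ⟨nu_ae.mono fun x hx => (nu_log hx).1,
      Integrable.of_bound hm.norm.integral_prod_right' 2 (nu_ae.mono fun x hx => ?_)⟩
    rw [Real.norm_of_nonneg (integral_nonneg fun _ => norm_nonneg _)]
    have h1 := integral_mono_ae (nu_log hx).1.norm ((integrable_const 2).sub (nu_log hx).1) (by
      filter_upwards [nu_ae] with y hy
      have a1 : ‖x - y‖ ≤ 2 := by linarith [norm_sub_le x y]
      have a2 : Real.log ‖x - y‖ ≤ 1 := by
        rcases (norm_nonneg (x - y)).eq_or_lt with h | h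
        · rw [← h]; simp
        · linarith [Real.log_le_sub_one_of_pos h]
      simp only [Pi.sub_apply, Real.norm_eq_abs, abs_le]
      constructor <;> linarith)
    simp only [Pi.sub_apply] at h1
    rw [integral_sub (integrable_const _) (nu_log hx).1, (nu_log hx).2] at h1
    simpa using h1
  refine ⟨hi, ?_⟩
  rw [integral_prod _ hi, integral_congr_ae (nu_ae.mono fun x hx => (nu_log hx).2)]
  simp

theorem parseval_low (P : Polynomial ℂ) (hP : P.Monic) {N : ℕ} (hN : P.natDegree < N) (r s : ℝ)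
    (hr : 0 ≤ r) : (N : ℝ) * r ^ (2 * P.natDegree) ≤
      ∑ k : Fin N, ‖P.eval (circleMap 0 r (2 * π * k / N + s))‖ ^ 2 := by
  set n := P.natDegree with hn
  have hN0 : N ≠ 0 := by omega
  have hω := Complex.isPrimitiveRoot_exp N hN0
  set ω := Complex.exp (2 * π * Complex.I / N) with hωd
  set z := circleMap 0 r s with hz
  have e1 : ∀ k : ℕ, circleMap 0 r (2 * π * k / N + s) = z * ω ^ k := fun k => by
    rw [hz, hωd, circleMap_zero, circleMap_zero, ← Complex.exp_nat_mul, mul_assoc (r : ℂ),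
      ← Complex.exp_add]
    congr 2
    push_cast; ring
  have hω1 : ‖ω‖ = 1 := hω.norm'_eq_one hN0
  have e2 : ∑ k ∈ Finset.range N, P.eval (z * ω ^ k) * (ω ^ (N - n)) ^ k = N * z ^ n := by
    simp only [Polynomial.eval_eq_sum_range, Finset.sum_mul]
    rw [Finset.sum_comm, ← hn, Finset.sum_range_succ, Finset.sum_eq_zero, zero_add]
    · have : ∀ k ∈ Finset.range N, P.coeff n * (z * ω ^ k) ^ n * (ω ^ (N - n)) ^ k = z ^ n := by
        intro k _
        have h1 : P.coeff n = 1 := hP.coeff_natDegree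
        rw [h1, one_mul, mul_pow, mul_assoc, ← pow_mul, mul_comm k, pow_mul, ← mul_pow,
          ← pow_add, Nat.add_sub_cancel' hN.le, hω.pow_eq_one, one_pow, mul_one]
      rw [Finset.sum_congr rfl this]; simp
    · intro m hm
      have hm' := Finset.mem_range.1 hm
      have : ∀ k ∈ Finset.range N, P.coeff m * (z * ω ^ k) ^ m * (ω ^ (N - n)) ^ k =
          P.coeff m * z ^ m * (ω ^ (m + (N - n))) ^ k := by
        intro k _
        rw [pow_add, mul_pow, mul_pow, ← pow_mul ω k m, mul_comm k, pow_mul]; ring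
      rw [Finset.sum_congr rfl this, ← Finset.mul_sum]
      have h1 : ω ^ (m + (N - n)) ≠ 1 := hω.pow_ne_one_of_pos_of_lt (by omega) (by omega)
      have h2 := mul_geom_sum (ω ^ (m + (N - n))) N
      rw [← pow_mul, mul_comm _ N, pow_mul, hω.pow_eq_one, one_pow, sub_self] at h2
      rw [(mul_eq_zero.1 h2).resolve_left (sub_ne_zero.2 h1), mul_zero]
  have e3 : (N : ℝ) * r ^ n ≤ ∑ k ∈ Finset.range N, ‖P.eval (z * ω ^ k)‖ := by
    have := norm_sum_le (Finset.range N) fun k => P.eval (z * ω ^ k) * (ω ^ (N - n)) ^ k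
    rw [e2] at this
    simpa [hω1, hz, abs_of_nonneg hr] using this
  have e4 := sq_sum_le_card_mul_sum_sq (s := Finset.range N) (f := fun k => ‖P.eval (z * ω ^ k)‖)
  rw [Finset.card_range] at e4
  simp only [e1]
  rw [Fin.sum_univ_eq_sum_range (fun k => ‖P.eval (z * ω ^ k)‖ ^ 2) N]
  have hNp : (0 : ℝ) < N := by positivity
  refine le_of_mul_le_mul_left (le_trans ?_ e4) hNp
  have e5 := pow_le_pow_left₀ (by positivity) e3 2
  refine le_trans (le_of_eq ?_) e5
  ring

end Pool.Agent.H.MP_a2ac39_an
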