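import Mathlib
import Pool.Agent.H.MP_a2ac39_an.A

namespace Pool.Agent.H.MP_a2ac39_an

open MeasureTheory Set Filter Topology
open scoped Real ENNReal

/-- sparse positions -/
def pos (k : ℕ) : ℕ := 16 ^ k + 2

theorem pos_mono : StrictMono pos := fun _ _ h =>
  Nat.add_lt_add_right (Nat.pow_lt_pow_right (by norm_num) h) 2

/-- sparse Cantor map -/
noncomputable def can (x : ℕ → Bool) : ℝ :=
  Cardinal.cantorFunction (1 / 3) (Function.extend pos x fun _ => false)

theorem can_inj : Function.Injective can := fun x y h => by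
  have := Cardinal.cantorFunction_injective (by norm_num) (by norm_num) h
  funext k
  have h2 := congrFun this (pos k)
  rwa [pos_mono.injective.extend_apply, pos_mono.injective.extend_apply] at h2

theorem can_close {x y : ℕ → Bool} {k : ℕ} (h : ∀ i < k, x i = y i) :
    dist (can x) (can y) ≤ Real.exp (-(16 : ℝ) ^ k) / 4 := by
  have hs := fun f => Cardinal.summable_cantor_function (c := 1 / 3) f (by norm_num) (by norm_num)
  have h1 : HasSum (fun n => if pos k ≤ n then (1 / 3 : ℝ) ^ n else 0)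
      ((1 / 3 : ℝ) ^ pos k * (1 - 1 / 3)⁻¹) := by
    rw [← hasSum_nat_add_iff' (pos k), Finset.sum_eq_zero (fun i hi => if_neg
      (not_le.2 (Finset.mem_range.1 hi))), sub_zero]
    have := (hasSum_geometric_of_lt_one (r := 1 / 3) (by norm_num) (by norm_num)).mul_left
      ((1 / 3 : ℝ) ^ pos k)
    simpa [pow_add, mul_comm] using this
  rw [dist_eq_norm, can, can, Cardinal.cantorFunction, Cardinal.cantorFunction,
    ← (hs _).tsum_sub (hs _)]
  refine (tsum_of_norm_bounded h1 fun n => ?_).trans ?_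
  · split_ifs with hn
    · simp only [Cardinal.cantorFunctionAux]
      have : (0 : ℝ) ≤ (1 / 3) ^ n := by positivity
      cases Function.extend pos x (fun _ => false) n <;>
        cases Function.extend pos y (fun _ => false) n <;> simp
    · have : Function.extend pos x (fun _ => false) n =
          Function.extend pos y (fun _ => false) n := by
        by_cases hex : ∃ i, pos i = n
        · obtain ⟨i, rfl⟩ := hex
          rw [pos_mono.injective.extend_apply, pos_mono.injective.extend_apply]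
          exact h i (pos_mono.lt_iff_lt.1 (not_le.1 hn))
        · rw [Function.extend_apply' _ _ _ hex, Function.extend_apply' _ _ _ hex]
      rw [Cardinal.cantorFunctionAux_eq this]; simp
  · have h2 : (1 / 3 : ℝ) ≤ Real.exp (-1) := by
      rw [Real.exp_neg, one_div]
      exact inv_anti₀ (Real.exp_pos 1) (by linarith [Real.exp_one_lt_d9])
    have h3 := pow_le_pow_left₀ (by norm_num) h2 (16 ^ k)
    rw [← Real.exp_nat_mul] at h3
    push_cast at h3
    rw [mul_neg, mul_one] at h3
    have h4 := Real.exp_pos (-(16 : ℝ) ^ k)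
    rw [pos, pow_add]
    linarith

/-- centres of the covers -/
noncomputable def ctr (k : ℕ) (w : Fin k → Bool) : ℝ :=
  can fun i => if h : i < k then w ⟨i, h⟩ else false

/-- the thin compact set -/
def thin : Set ℝ := ⋂ k, ⋃ w, Metric.closedBall (ctr k w) (Real.exp (-(16 : ℝ) ^ k) / 4)

theorem can_mem (x : ℕ → Bool) : can x ∈ thin :=
  mem_iInter.2 fun k => mem_iUnion.2 ⟨fun i => x i, can_close fun i hi => by simp [hi]⟩

theorem isCompact_thin : IsCompact thin :=
  (isCompact_iUnion fun w => isCompact_closedBall (ctr 0 w) _).of_isClosed_subset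
    (isClosed_iInter fun _ => isClosed_iUnion_of_finite fun _ => Metric.isClosed_closedBall)
    (iInter_subset _ 0)

/-- injective measurable map into the thin set -/
noncomputable def tt (t : ℝ) : ℝ := can fun k => decide (t ≤ ((Denumerable.eqv ℚ).symm k : ℚ))

theorem tt_inj : Function.Injective tt := fun x y h => by
  have h1 := can_inj h
  have h2 : ∀ q : ℚ, x ≤ q ↔ y ≤ q := fun q => by
    simpa using congrFun h1 (Denumerable.eqv ℚ q)
  rcases lt_trichotomy x y with l | l | l
  · obtain ⟨q, hq1, hq2⟩ := exists_rat_btwn l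
    exact absurd ((h2 q).1 hq1.le) (not_le.2 hq2)
  · exact l
  · obtain ⟨q, hq1, hq2⟩ := exists_rat_btwn l
    exact absurd ((h2 q).2 hq1.le) (not_le.2 hq2)

theorem tt_measurable : Measurable tt := by
  refine Measurable.tsum fun n => ?_
  by_cases hex : ∃ i, pos i = n
  · obtain ⟨i, rfl⟩ := hex
    simp only [Cardinal.cantorFunctionAux, pos_mono.injective.extend_apply, Bool.cond_decide]
    exact Measurable.ite measurableSet_Iic measurable_const measurable_const
  · simp only [Cardinal.cantorFunctionAux, Function.extend_apply' _ _ _ hex]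
    exact measurable_const

/-- index set -/
abbrev Ix := Σ j : ℕ, Fin ((j + 2) ^ 2)

/-- radius -/
noncomputable def rad (j : ℕ) : ℝ := 1 + 1 / (j + 1)

theorem rad_gt (j : ℕ) : 1 < rad j := lt_add_of_pos_right _ (by positivity)

theorem rad_le (j : ℕ) : rad j ≤ 2 := by
  have : (1 : ℝ) / (j + 1) ≤ 1 := by
    rw [div_le_one (by positivity)]; linarith [(Nat.cast_nonneg j : (0 : ℝ) ≤ j)]
  unfold rad; linarith

/-- the rotated copies -/
noncomputable def phi (i : Ix) (s : ℝ) : ℂ :=
  circleMap 0 (rad i.1) (2 * π * (i.2 : ℕ) / ((i.1 + 2) ^ 2 : ℕ) + s)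

theorem phi_cont (i : Ix) : Continuous (phi i) :=
  (continuous_circleMap 0 _).comp (continuous_const.add continuous_id)

theorem phi_norm (i : Ix) (s : ℝ) : ‖phi i s‖ = rad i.1 := by
  simp [phi, abs_of_pos (zero_lt_one.trans (rad_gt i.1))]

theorem phi_lip (i : Ix) (s t : ℝ) : dist (phi i s) (phi i t) ≤ 2 * dist s t := by
  refine ((lipschitzWith_circleMap 0 (rad i.1)).dist_le_mul _ _).trans ?_
  rw [dist_add_left]
  gcongr
  simpa [abs_of_pos (zero_lt_one.trans (rad_gt i.1))] using rad_le i.1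

/-- weights -/
noncomputable def wt (i : Ix) : ℝ≥0∞ := 2⁻¹ ^ (i.1 + 1) * (((i.1 + 2) ^ 2 : ℕ) : ℝ≥0∞)⁻¹

/-- Lebesgue measure on the unit interval -/
noncomputable abbrev lam : Measure ℝ := volume.restrict (Icc (0 : ℝ) 1)

/-- the measure -/
noncomputable def mu : Measure ℂ := Measure.sum fun i : Ix => wt i • lam.map (phi i ∘ tt)

theorem meas_pt (i : Ix) : Measurable (phi i ∘ tt) := (phi_cont i).measurable.comp tt_measurable

theorem mu_apply {s : Set ℂ} (hs : MeasurableSet s) :
    mu s = ∑' i : Ix, wt i * lam ((phi i ∘ tt) ⁻¹' s) := by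
  rw [mu, Measure.sum_apply _ hs]
  refine tsum_congr fun i => ?_
  rw [Measure.smul_apply, Measure.map_apply (meas_pt i) hs, smul_eq_mul]

instance : IsProbabilityMeasure mu := by
  refine ⟨?_⟩
  rw [mu_apply MeasurableSet.univ, ENNReal.tsum_sigma']
  have : ∀ j : ℕ, ∑' k : Fin ((j + 2) ^ 2), wt ⟨j, k⟩ * lam ((phi ⟨j, k⟩ ∘ tt) ⁻¹' univ) =
      2⁻¹ ^ (j + 1) := fun j => by
    rw [tsum_fintype]
    simp only [wt, preimage_univ, Measure.restrict_apply_univ, Real.volume_Icc, sub_zero,
      ENNReal.ofReal_one, mul_one, Finset.sum_const, Finset.card_univ, Fintype.card_fin,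
      nsmul_eq_mul]
    rw [mul_comm, mul_assoc, ENNReal.inv_mul_cancel (by simp) (by simp), mul_one]
  simp only [this]
  rw [ENNReal.tsum_geometric_add_one]
  simp [ENNReal.inv_mul_cancel]

theorem mu_null {s : Set ℂ} (hs : MeasurableSet s)
    (h : ∀ i, lam ((phi i ∘ tt) ⁻¹' s) = 0) : mu s = 0 := by
  rw [mu_apply hs]; simp [h]

instance : NullSingletonClass mu := ⟨fun z => mu_null (measurableSet_singleton z) fun i => by
  refine Set.Countable.measure_zero ?_ _
  exact ((countable_singleton z).preimage_circleMap 0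
    (zero_lt_one.trans (rad_gt i.1)).ne').preimage
      ((add_right_injective _).comp tt_inj)⟩

/-- closed supersets of the support -/
def CJ (J : ℕ) : Set ℂ := {z | 1 ≤ ‖z‖ ∧ ‖z‖ ≤ rad J} ∪ ⋃ i ∈ {i : Ix | i.1 < J}, phi i '' thin

theorem support_sub (J : ℕ) : mu.support ⊆ CJ J := by
  have hfin : {i : Ix | i.1 < J}.Finite := by
    refine ((Finset.range J).sigma fun _ => Finset.univ).finite_toSet.subset fun i hi => ?_
    simpa using hi
  have hcl : IsClosed (CJ J) :=
    ((isClosed_le continuous_const continuous_norm).inter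
      (isClosed_le continuous_norm continuous_const)).union
      (hfin.isClosed_biUnion fun i _ => (isCompact_thin.image (phi_cont i)).isClosed)
  refine Measure.support_subset_of_isClosed hcl ?_
  refine mu_null hcl.measurableSet.compl fun i => ?_
  have : (phi i ∘ tt) ⁻¹' (CJ J)ᶜ = ∅ := by
    refine eq_empty_of_forall_notMem fun t ht => ht ?_
    rcases lt_or_ge i.1 J with h | h
    · exact Or.inr (mem_biUnion (t := fun i => phi i '' thin) h ⟨_, can_mem _, rfl⟩)
    · refine Or.inl ⟨?_, ?_⟩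
      · rw [Function.comp, phi_norm]; exact (rad_gt _).le
      · rw [Function.comp, phi_norm]
        unfold rad
        gcongr
  rw [this, measure_empty]

theorem support_compact : IsCompact mu.support := by
  refine (isCompact_closedBall (0 : ℂ) 2).of_isClosed_subset Measure.isClosed_support
    fun z hz => ?_
  rcases support_sub 0 hz with h | h
  · simpa using h.2.trans (rad_le 0)
  · simp at h

theorem support_sub' : mu.support ⊆ {z | ‖z‖ = 1} ∪ ⋃ i : Ix, phi i '' thin := by
  intro z hz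
  by_contra hcon
  rw [mem_union, not_or] at hcon
  have h1 : ∀ J, 1 ≤ ‖z‖ ∧ ‖z‖ ≤ rad J := fun J => (support_sub J hz).resolve_right fun h => by
    obtain ⟨i, _, hi⟩ := mem_iUnion₂.1 h
    exact hcon.2 (mem_iUnion.2 ⟨i, hi⟩)
  have h2 : 0 < ‖z‖ - 1 := sub_pos.2 (lt_of_le_of_ne (h1 0).1 (Ne.symm hcon.1))
  obtain ⟨J, hJ⟩ := exists_nat_one_div_lt h2
  have := (h1 J).2
  unfold rad at this
  linarith

theorem circle_sub {ζ : ℂ} (hζ : ‖ζ‖ = 1) : ζ ∈ mu.support := by
  rw [Measure.mem_support_iff_forall]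
  intro U hU
  obtain ⟨ε, hε, hball⟩ := Metric.mem_nhds_iff.1 hU
  refine lt_of_lt_of_le ?_ (measure_mono hball)
  obtain ⟨j, hj⟩ := exists_nat_one_div_lt (show 0 < ε / 20 by positivity)
  by_contra hcon
  rw [not_lt, nonpos_iff_eq_zero, mu_apply Metric.isOpen_ball.measurableSet,
    ENNReal.tsum_eq_zero] at hcon
  have h1 : ∀ᵐ t ∂lam, ∀ k : Fin ((j + 2) ^ 2), phi ⟨j, k⟩ (tt t) ∉ Metric.ball ζ ε := by
    refine ae_all_iff.2 fun k => ?_
    have := (mul_eq_zero.1 (hcon ⟨j, k⟩)).resolve_left (by simp [wt])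
    exact measure_eq_zero_iff_ae_notMem.1 this
  haveI : (ae lam).NeBot := ae_neBot.2 (by simp)
  obtain ⟨t, ht⟩ := h1.exists
  set s := tt t
  set N : ℕ := (j + 2) ^ 2 with hN
  have hNp : (0 : ℝ) < N := by positivity
  obtain ⟨a, ha⟩ := (Complex.norm_eq_one_iff ζ).1 hζ
  set θ := toIcoMod Real.two_pi_pos 0 (a - s) with hθ
  have hθm := toIcoMod_mem_Ico Real.two_pi_pos 0 (a - s)
  rw [← hθ, zero_add] at hθm
  have hζe : ζ = circleMap 0 1 (θ + s) := by
    rw [hθ, ← self_sub_toIcoDiv_zsmul, sub_right_comm a, sub_add_cancel,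
      (periodic_circleMap 0 1).sub_zsmul_eq, ← ha]
    simp [circleMap]
  have hpi := Real.pi_pos
  have hx0 : 0 ≤ θ * N / (2 * π) := div_nonneg (mul_nonneg hθm.1 hNp.le) (by positivity)
  have hk : ⌊θ * N / (2 * π)⌋₊ < N := by
    rw [Nat.floor_lt hx0, div_lt_iff₀ (by positivity)]
    nlinarith [hθm.2]
  refine ht ⟨_, hk⟩ ?_
  have a1 := Nat.floor_le hx0
  have a2 := Nat.lt_floor_add_one (θ * N / (2 * π))
  set k := ⌊θ * N / (2 * π)⌋₊
  rw [le_div_iff₀ (by positivity)] at a1
  rw [div_lt_iff₀ (by positivity)] at a2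
  have b1 : dist (2 * π * k / N + s) (θ + s) ≤ 8 * (1 / (j + 1)) := by
    rw [dist_add_right, Real.dist_eq, abs_sub_comm, abs_of_nonneg (by
      rw [sub_nonneg, div_le_iff₀ hNp]; linarith), sub_le_iff_le_add]
    have c1 : (2 : ℝ) * π / N ≤ 8 * (1 / (j + 1)) := by
      rw [mul_one_div, div_le_div_iff₀ hNp (by positivity), hN]
      push_cast
      nlinarith [Real.pi_lt_four, (Nat.cast_nonneg j : (0 : ℝ) ≤ j)]
    have c2 : θ ≤ 2 * π / N + 2 * π * k / N := by
      rw [← add_div, le_div_iff₀ hNp]; linarith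
    linarith
  have b2 := (lipschitzWith_circleMap 0 1).dist_le_mul (2 * π * k / N + s) (θ + s)
  have b3 : dist (phi ⟨j, ⟨k, hk⟩⟩ s) (circleMap 0 1 (2 * π * k / N + s)) = 1 / (j + 1) := by
    rw [dist_eq_norm, phi, circleMap_zero, circleMap_zero, ← sub_mul, norm_mul,
      Complex.norm_exp_ofReal_mul_I, mul_one, ← Complex.ofReal_sub, Complex.norm_real, rad,
      add_sub_cancel_left, Real.norm_of_nonneg (by positivity)]
  have b4 := dist_triangle (phi ⟨j, ⟨k, hk⟩⟩ s) (circleMap 0 1 (2 * π * k / N + s))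
    (circleMap 0 1 (θ + s))
  rw [Metric.mem_ball, hζe]
  simp only [map_one, NNReal.coe_one, one_mul] at b2
  linarith

theorem ae_circle (ρ : Measure ℂ) [IsFiniteMeasure ρ] [NullSingletonClass ρ]
    (h : ρ mu.supportᶜ = 0)
    (hρ : Integrable (fun p : ℂ × ℂ => Real.log ‖p.1 - p.2‖) (ρ.prod ρ)) : ∀ᵐ z ∂ρ, ‖z‖ = 1 := by
  have h1 : ∀ i : Ix, ρ (phi i '' thin) = 0 := fun i => polar ρ hρ _ fun k =>
    ⟨fun w => phi i (ctr k w), by
      rintro _ ⟨s, hs, rfl⟩
      obtain ⟨w, hw⟩ := mem_iUnion.1 (mem_iInter.1 hs k)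
      refine mem_iUnion.2 ⟨w, ?_⟩
      have := phi_lip i s (ctr k w)
      rw [Metric.mem_closedBall] at hw ⊢
      linarith⟩
  filter_upwards [measure_eq_zero_iff_ae_notMem.1 h,
    measure_eq_zero_iff_ae_notMem.1 (measure_iUnion_null h1)] with z h2 h3
  exact (support_sub' (not_not.1 h2)).resolve_right h3

theorem singular : mu.MutuallySingular nu := by
  have hm : MeasurableSet {z : ℂ | ‖z‖ = 1} :=
    measurableSet_eq_fun measurable_norm measurable_const
  refine ⟨{z | ‖z‖ = 1}, hm, mu_null hm fun i => ?_, nu_ae⟩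
  have : (phi i ∘ tt) ⁻¹' {z | ‖z‖ = 1} = ∅ :=
    eq_empty_of_forall_notMem fun t ht => (rad_gt i.1).ne' ((phi_norm i _).symm.trans ht)
  rw [this, measure_empty]

theorem lower (P : Polynomial ℂ) (hP : P.Monic) (hn : 1 ≤ P.natDegree) :
    1 ≤ ∫ z, ‖P.eval z‖ ^ 2 ∂mu := by
  set n := P.natDegree with hnd
  obtain ⟨j, hj⟩ : ∃ j, Nat.sqrt n = j + 1 := ⟨Nat.sqrt n - 1, by
    have := Nat.sqrt_pos.2 hn; omega⟩
  have h1 : (j + 1) ^ 2 ≤ n := hj ▸ Nat.sqrt_le' n
  have h2 : n < (j + 2) ^ 2 := by have := Nat.lt_succ_sqrt' n; rwa [hj] at this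
  have hc : Continuous fun z => ‖P.eval z‖ ^ 2 := (P.continuous.norm).pow 2
  have hint : Integrable (fun z => ‖P.eval z‖ ^ 2) mu := by
    have := hc.continuousOn.integrableOn_compact (μ := mu) support_compact
    rwa [IntegrableOn, Measure.restrict_eq_self_of_ae_mem (s := mu.support)
      Measure.support_mem_ae] at this
  have hm : Measurable fun z => ENNReal.ofReal (‖P.eval z‖ ^ 2) := hc.measurable.ennreal_ofReal
  rw [← ENNReal.ofReal_le_ofReal_iff (integral_nonneg fun _ => by positivity),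
    ofReal_integral_eq_lintegral_ofReal hint (Eventually.of_forall fun _ => by positivity), mu,
    lintegral_sum_measure, ENNReal.tsum_sigma']
  refine le_trans ?_ (ENNReal.le_tsum j)
  rw [tsum_fintype]
  simp only [lintegral_smul_measure, lintegral_map hm (meas_pt _), wt, smul_eq_mul]
  rw [← Finset.mul_sum, ← lintegral_finsetSum (f := fun (k : Fin ((j + 2) ^ 2)) t =>
    ENNReal.ofReal (‖P.eval ((phi ⟨j, k⟩ ∘ tt) t)‖ ^ 2)) _ fun k _ => hm.comp (meas_pt _)]
  have h3 : ∫⁻ _, ENNReal.ofReal ((((j + 2) ^ 2 : ℕ) : ℝ) * 2 ^ (j + 1)) ∂lam ≤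
      ∫⁻ t, ∑ k : Fin ((j + 2) ^ 2),
        ENNReal.ofReal (‖P.eval ((phi ⟨j, k⟩ ∘ tt) t)‖ ^ 2) ∂lam := by
    refine lintegral_mono fun t => ?_
    beta_reduce
    rw [← ENNReal.ofReal_sum_of_nonneg fun _ _ => by positivity]
    refine ENNReal.ofReal_le_ofReal (le_trans ?_
      (parseval_low P hP h2 (rad j) (tt t) (zero_le_one.trans (rad_gt j).le)))
    gcongr
    have a1 : (2 : ℝ) ≤ rad j ^ (j + 1) := by
      have := one_add_mul_le_pow (a := 1 / ((j : ℝ) + 1)) (by
        have : (0 : ℝ) < 1 / (j + 1) := by positivity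
        linarith) (j + 1)
      push_cast at this
      rw [mul_one_div_cancel (by positivity)] at this
      unfold rad; linarith
    refine (pow_le_pow_left₀ (by norm_num) a1 _).trans ?_
    rw [← pow_mul]
    exact pow_le_pow_right₀ (rad_gt j).le (by nlinarith)
  refine le_trans (le_of_eq ?_) (mul_le_mul_right h3 _)
  rw [lintegral_const, ENNReal.ofReal_mul (by positivity), ENNReal.ofReal_natCast,
    ENNReal.ofReal_pow (by norm_num), ENNReal.ofReal_ofNat, Measure.restrict_apply_univ,
    Real.volume_Icc, sub_zero, ENNReal.ofReal_one, mul_one, mul_assoc,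
    ENNReal.inv_mul_cancel_left (by simp) (by simp), ← mul_pow,
    ENNReal.inv_mul_cancel (by simp) (by simp), one_pow]

end Pool.Agent.H.MP_a2ac39_an
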